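import Mathlib

/-!
# Exponential series with a logarithmic singularity on the edge of convergence

`D(z) = ∑ c_v e^{-l_v z}`, absolutely convergent for `Re z > 0`.  The function `D(z) + r log z` extends
holomorphically to a neighbourhood of `0` if and only if the normalised Taylor coefficients of `D` at
one point `x > 0` tend to `r` exponentially fast.
-/

set_option autoImplicit false

namespace Pool.Agent.R187.GA

open Complex Filter Topology Metric

variable {ι : Type*}

/-- `∑ c_v e^{-l_v z}` -/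
noncomputable def DD (c : ι → ℂ) (l : ι → ℝ) (z : ℂ) : ℂ := ∑' v, c v * Complex.exp (-(z * l v))

/-- `∑ c_v l_v^n e^{-l_v x}` -/
noncomputable def SS (c : ι → ℂ) (l : ι → ℝ) (x : ℝ) (n : ℕ) : ℂ :=
  ∑' v, c v * (l v : ℂ) ^ n * Complex.exp (-((x : ℂ) * l v))

/-- the normalised Taylor coefficients -/
noncomputable def TT (c : ι → ℂ) (l : ι → ℝ) (x : ℝ) (n : ℕ) : ℂ :=
  (x : ℂ) ^ n / ((n - 1).factorial : ℂ) * SS c l x n

structure Ok (c : ι → ℂ) (l : ι → ℝ) : Prop where
  nn : ∀ v, 0 ≤ l v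
  sm : ∀ x : ℝ, 0 < x → Summable fun v => ‖c v‖ * Real.exp (-(x * l v))

variable {c : ι → ℂ} {l : ι → ℝ}

lemma norm_term (v : ι) (z : ℂ) : ‖c v * Complex.exp (-(z * l v))‖ =
    ‖c v‖ * Real.exp (-(z.re * l v)) := by
  rw [norm_mul, Complex.norm_exp]
  congr 2
  simp

/-- the Taylor series of `D` -/
lemma taylor (h : Ok c l) {x : ℝ} (_ : 0 < x) {z : ℂ} (hz : ‖z - x‖ < x) :
    HasSum (fun n : ℕ => ((-1) ^ n / (n.factorial : ℂ) * SS c l x n) * (z - x) ^ n) (DD c l z) := by
  set F : ι × ℕ → ℂ := fun p => c p.1 * Complex.exp (-((x : ℂ) * l p.1)) *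
    ((-((z - x) * l p.1)) ^ p.2 / (p.2.factorial : ℂ)) with hF
  have hexp : ∀ v, HasSum (fun n => F (v, n)) (c v * Complex.exp (-(z * l v))) := by
    intro v
    have h1 : HasSum (fun n : ℕ => (-((z - x) * l v)) ^ n / (n.factorial : ℂ))
        (Complex.exp (-((z - x) * l v))) := by
      rw [Complex.exp_eq_exp_ℂ]
      exact NormedSpace.expSeries_div_hasSum_exp _
    have h2 := h1.mul_left (c v * Complex.exp (-((x : ℂ) * l v)))
    have h3 : c v * Complex.exp (-((x : ℂ) * l v)) * Complex.exp (-((z - x) * l v)) =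
        c v * Complex.exp (-(z * l v)) := by
      rw [mul_assoc, ← Complex.exp_add]
      congr 2
      ring
    rw [h3] at h2
    exact h2
  have hnorm : ∀ p : ι × ℕ, ‖F p‖ = ‖c p.1‖ * Real.exp (-(x * l p.1)) *
      ((‖z - x‖ * l p.1) ^ p.2 / (p.2.factorial : ℝ)) := by
    intro p
    rw [hF]
    simp only [norm_mul, norm_div, norm_pow, norm_neg, Complex.norm_natCast]
    rw [Complex.norm_exp, Complex.norm_real, Real.norm_of_nonneg (h.nn p.1)]
    congr 3
    simp
  have hsum : Summable F := by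
    rw [← summable_norm_iff]
    have hnn : (0 : ι × ℕ → ℝ) ≤ fun p => ‖F p‖ := fun p => norm_nonneg _
    rw [summable_prod_of_nonneg hnn]
    have hex : ∀ v, HasSum (fun n : ℕ => ‖F (v, n)‖)
        (‖c v‖ * Real.exp (-(x * l v)) * Real.exp (‖z - x‖ * l v)) := by
      intro v
      have h1 : HasSum (fun n : ℕ => (‖z - x‖ * l v) ^ n / (n.factorial : ℝ))
          (Real.exp (‖z - x‖ * l v)) := by
        rw [Real.exp_eq_exp_ℝ]
        exact NormedSpace.expSeries_div_hasSum_exp _
      refine (h1.mul_left (‖c v‖ * Real.exp (-(x * l v)))).congr_fun fun n => ?_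
      rw [hnorm]
    refine ⟨fun v => (hex v).summable, ?_⟩
    have h2 : (fun v => ∑' n, ‖F (v, n)‖) = fun v => ‖c v‖ * Real.exp (-((x - ‖z - x‖) * l v)) := by
      funext v
      rw [(hex v).tsum_eq, mul_assoc, ← Real.exp_add]
      congr 2
      ring
    rw [h2]
    exact h.sm _ (by linarith)
  have htot := hsum.hasSum
  have hA : HasSum (fun v => c v * Complex.exp (-(z * l v))) (∑' p, F p) :=
    htot.prod_fiberwise hexp
  have hAe : ∑' p, F p = DD c l z := hA.tsum_eq.symm
  have hswap : HasSum (fun p : ℕ × ι => F (p.2, p.1)) (∑' p, F p) := by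
    have := (Equiv.prodComm ℕ ι).hasSum_iff.2 htot
    exact this
  have hB := hswap.prod_fiberwise (g := fun n : ℕ =>
    ((-1) ^ n / (n.factorial : ℂ) * SS c l x n) * (z - x) ^ n) (by
      intro n
      have h1 : Summable fun v => F (v, n) := by
        have := ((Equiv.prodComm ℕ ι).summable_iff.2 hsum).prod_factor n
        exact this
      have h2 : ∀ v, F (v, n) = (-1) ^ n / (n.factorial : ℂ) * (z - x) ^ n *
          (c v * (l v : ℂ) ^ n * Complex.exp (-((x : ℂ) * l v))) := by
        intro v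
        rw [hF]
        simp only
        rw [neg_pow, mul_pow]
        ring
      have h3 := h1.hasSum
      have h4 : ∑' v, F (v, n) = ((-1) ^ n / (n.factorial : ℂ) * SS c l x n) * (z - x) ^ n := by
        rw [tsum_congr h2, tsum_mul_left]
        unfold SS
        ring
      rw [h4] at h3
      exact h3)
  rw [hAe] at hB
  exact hB

/-- `D` is holomorphic -/
lemma diff_DD (h : Ok c l) : DifferentiableOn ℂ (DD c l) {z : ℂ | 0 < z.re} := by
  intro z hz
  have hz' : 0 < z.re := hz
  have hopen : IsOpen {w : ℂ | z.re / 2 < w.re} := isOpen_lt continuous_const continuous_re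
  have h1 : DifferentiableOn ℂ (DD c l) {w : ℂ | z.re / 2 < w.re} := by
    refine differentiableOn_tsum_of_summable_norm (h.sm (z.re / 2) (by linarith))
      (fun v => ?_) hopen fun v w hw => ?_
    · exact (by fun_prop : Differentiable ℂ fun w : ℂ => c v * Complex.exp (-(w * l v))).differentiableOn
    · rw [norm_term]
      have hw' : z.re / 2 < w.re := hw
      have := h.nn v
      gcongr
  exact (h1.differentiableAt (hopen.mem_nhds (by show z.re / 2 < z.re; linarith))).differentiableWithinAt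

/-- the series of `D(z) + r log z` -/
lemma series (h : Ok c l) {x : ℝ} (hx : 0 < x) (r : ℂ) {z : ℂ} (hz : ‖z - x‖ < x) :
    HasSum (fun n : ℕ => (if n = 0 then SS c l x 0 + r * Real.log x else
      (-1) ^ n * (TT c l x n - r) / (n * (x : ℂ) ^ n)) * (z - x) ^ n)
      (DD c l z + r * Complex.log z) := by
  have hx' : (x : ℂ) ≠ 0 := by exact_mod_cast hx.ne'
  have h1 := taylor h hx hz
  set w : ℂ := (x - z) / x with hw
  have hw1 : ‖w‖ < 1 := by
    rw [hw, norm_div, norm_sub_rev, Complex.norm_real, Real.norm_of_nonneg hx.le, div_lt_one hx]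
    exact hz
  have h2 := Complex.hasSum_taylorSeries_neg_log hw1
  have h3 : (1 - w) = z / x := by
    rw [hw]
    field_simp
    ring
  have hz0 : z ≠ 0 := by
    intro h0
    rw [h0, zero_sub, norm_neg, Complex.norm_real, Real.norm_of_nonneg hx.le] at hz
    exact lt_irrefl _ hz
  have h4 : Complex.log z = Real.log x + Complex.log (1 - w) := by
    have h5 : z = (x : ℂ) * (1 - w) := by
      rw [h3]
      field_simp
    have h6 : (1 - w) ≠ 0 := by
      rw [h3]
      exact div_ne_zero hz0 hx'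
    conv_lhs => rw [h5]
    rw [Complex.log_ofReal_mul hx h6]
  have h5 : HasSum (fun n : ℕ => if n = 0 then r * (Real.log x : ℂ) else 0) (r * (Real.log x : ℂ)) := by
    have := hasSum_ite_eq (0 : ℕ) (r * (Real.log x : ℂ))
    exact this
  have h6 := (h1.add h5).sub (h2.mul_left r)
  have h7 : DD c l z + r * (Real.log x : ℂ) - r * -Complex.log (1 - w) =
      DD c l z + r * Complex.log z := by
    rw [h4]
    ring
  rw [h7] at h6
  refine h6.congr_fun fun n => ?_
  by_cases hn : n = 0
  · subst hn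
    simp
  · rw [if_neg hn, if_neg hn]
    unfold TT
    have hnf : (n.factorial : ℂ) = n * ((n - 1).factorial : ℂ) := by
      exact_mod_cast (Nat.mul_factorial_pred hn).symm
    have hn0 : (n : ℂ) ≠ 0 := by exact_mod_cast hn
    have hf0 : ((n - 1).factorial : ℂ) ≠ 0 := by exact_mod_cast Nat.factorial_ne_zero _
    have h8 : w ^ n = (-1) ^ n * (z - x) ^ n / (x : ℂ) ^ n := by
      rw [hw, div_pow, ← neg_sub z (x : ℂ), neg_pow]
    rw [h8, hnf]
    field_simp
    ring

/-- **Criterion**, from the singularity to the coefficients. -/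
lemma coeff_of_ext (h : Ok c l) {x : ℝ} (hx : 0 < x) (r : ℂ) {y : ℂ → ℂ} (hy : AnalyticAt ℂ y 0)
    (he : ∀ᶠ z : ℂ in 𝓝 0, 0 < z.re → DD c l z = y z - r * Complex.log z) :
    ∃ C ρ : ℝ, 0 < ρ ∧ ρ < 1 ∧ ∀ n : ℕ, 1 ≤ n → ‖TT c l x n - r‖ ≤ C * ρ ^ n := by
  obtain ⟨δ, hδ, hall⟩ := Metric.eventually_nhds_iff_ball.1 (he.and hy.eventually_analyticAt)
  set R : ℝ := Real.sqrt (x ^ 2 + δ ^ 2 / 4) with hR
  have hRsq : R ^ 2 = x ^ 2 + δ ^ 2 / 4 := Real.sq_sqrt (by positivity)
  have hR0 : 0 < R := Real.sqrt_pos.2 (by positivity)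
  have hxR : x < R := by
    refine lt_of_pow_lt_pow_left₀ 2 hR0.le ?_
    rw [hRsq]
    have : 0 < δ ^ 2 := by positivity
    linarith
  set E : ℂ → ℂ := fun z => if 0 < z.re then DD c l z + r * Complex.log z else y z with hE
  have hH : IsOpen {z : ℂ | 0 < z.re} := isOpen_lt continuous_const continuous_re
  have hEd : ∀ z : ℂ, (0 < z.re ∨ z ∈ ball (0 : ℂ) δ) → DifferentiableAt ℂ E z := by
    intro z hz
    by_cases hz1 : 0 < z.re
    · have h1 : E =ᶠ[𝓝 z] fun z => DD c l z + r * Complex.log z := by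
        filter_upwards [hH.mem_nhds hz1] with w hw
        have hw' : 0 < w.re := hw
        rw [hE]
        simp only
        rw [if_pos hw']
      refine (DifferentiableAt.congr_of_eventuallyEq ?_ h1)
      have h2 : DifferentiableAt ℂ (DD c l) z := (diff_DD h).differentiableAt (hH.mem_nhds hz1)
      exact h2.add ((Complex.differentiableAt_log (Or.inl hz1)).const_mul r)
    · have hz2 : z ∈ ball (0 : ℂ) δ := hz.resolve_left hz1
      have h1 : E =ᶠ[𝓝 z] y := by
        filter_upwards [isOpen_ball.mem_nhds hz2] with w hw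
        rw [hE]
        simp only
        split_ifs with hw1
        · rw [(hall w hw).1 hw1]
          ring
        · rfl
      exact ((hall z hz2).2.differentiableAt).congr_of_eventuallyEq h1
  have hcl : ∀ z ∈ closedBall (x : ℂ) R, 0 < z.re ∨ z ∈ ball (0 : ℂ) δ := by
    intro z hz
    by_contra hcon
    push Not at hcon
    obtain ⟨h1, h2⟩ := hcon
    rw [mem_closedBall, dist_eq_norm] at hz
    rw [mem_ball, dist_zero_right, not_lt] at h2
    have h3 : ‖z - x‖ ^ 2 = ‖z‖ ^ 2 - 2 * x * z.re + x ^ 2 := by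
      rw [← Complex.normSq_eq_norm_sq, ← Complex.normSq_eq_norm_sq, Complex.normSq_apply,
        Complex.normSq_apply]
      simp
      ring
    have h4 : ‖z - x‖ ^ 2 ≤ R ^ 2 := by gcongr
    have h5 : δ ^ 2 ≤ ‖z‖ ^ 2 := by gcongr
    rw [h3, hRsq] at h4
    nlinarith [sq_pos_of_pos hδ]
  have hdc : DiffContOnCl ℂ E (ball (x : ℂ) R) := by
    refine DifferentiableOn.diffContOnCl ?_
    intro z hz
    rw [closure_ball _ hR0.ne'] at hz
    exact (hEd z (hcl z hz)).differentiableWithinAt
  obtain ⟨M, hM⟩ : ∃ M : ℝ, ∀ z ∈ sphere (x : ℂ) R, ‖E z‖ ≤ M := by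
    have h1 : ContinuousOn E (sphere (x : ℂ) R) := fun z hz =>
      (hEd z (hcl z (sphere_subset_closedBall hz))).continuousAt.continuousWithinAt
    obtain ⟨M, hM⟩ := (isCompact_sphere (x : ℂ) R).exists_bound_of_continuousOn h1
    exact ⟨M, hM⟩
  have hder := fun n : ℕ => norm_iteratedDeriv_le_of_forall_mem_sphere_norm_le n hR0 hdc hM
  -- the coefficients
  set a : ℕ → ℂ := fun n => if n = 0 then SS c l x 0 + r * Real.log x else
      (-1) ^ n * (TT c l x n - r) / (n * (x : ℂ) ^ n) with ha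
  have hxre : (0 : ℝ) < ((x : ℂ)).re := by simpa using hx
  have hp1 : HasFPowerSeriesAt E (FormalMultilinearSeries.ofScalars ℂ a) (x : ℂ) := by
    rw [hasFPowerSeriesAt_iff']
    filter_upwards [ball_mem_nhds (x : ℂ) hx, hH.mem_nhds hxre] with z hz hzre
    have hzre' : 0 < z.re := hzre
    rw [mem_ball, dist_eq_norm] at hz
    have h1 : E z = DD c l z + r * Complex.log z := by
      rw [hE]
      simp only
      rw [if_pos hzre']
    rw [h1]
    refine (series h hx r hz).congr_fun fun n => ?_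
    rw [FormalMultilinearSeries.coeff_ofScalars, smul_eq_mul, mul_comm]
  have hEa : AnalyticAt ℂ E (x : ℂ) := hp1.analyticAt
  have hp2 := hEa.hasFPowerSeriesAt
  have heq := hp1.eq_formalMultilinearSeries hp2
  have hco : ∀ n, a n = iteratedDeriv n E (x : ℂ) / n.factorial := by
    intro n
    have := congrArg (fun p => FormalMultilinearSeries.coeff p n) heq
    simpa only [FormalMultilinearSeries.coeff_ofScalars] using this
  have hM0 : 0 ≤ M := by
    have h1 : ((x : ℂ) + R) ∈ sphere (x : ℂ) R := by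
      rw [mem_sphere, dist_eq_norm, add_sub_cancel_left, Complex.norm_real,
        Real.norm_of_nonneg hR0.le]
    exact (norm_nonneg _).trans (hM _ h1)
  have hbound : ∀ n : ℕ, 1 ≤ n → ‖TT c l x n - r‖ ≤ M * (n * (x / R) ^ n) := by
    intro n hn
    have hn0 : n ≠ 0 := by omega
    have hnr : (0 : ℝ) < n := by exact_mod_cast hn
    have h1 := hder n
    have h2 : ‖a n‖ ≤ M / R ^ n := by
      rw [hco n, norm_div, Complex.norm_natCast]
      have hf : (0 : ℝ) < n.factorial := by exact_mod_cast n.factorial_pos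
      rw [div_le_iff₀ hf]
      refine h1.trans (le_of_eq ?_)
      ring
    have h3 : ‖a n‖ = ‖TT c l x n - r‖ / (n * x ^ n) := by
      rw [ha]
      simp only
      rw [if_neg hn0, norm_div, norm_mul, norm_mul, norm_pow, norm_pow, norm_neg, norm_one,
        one_pow, one_mul, Complex.norm_natCast, Complex.norm_real, Real.norm_of_nonneg hx.le]
    rw [h3, div_le_iff₀ (by positivity)] at h2
    refine h2.trans (le_of_eq ?_)
    rw [div_pow]
    ring
  -- absorb the factor n
  set q : ℝ := x / R with hq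
  have hq0 : 0 < q := by positivity
  have hq1 : q < 1 := by rw [hq, div_lt_one hR0]; exact hxR
  set ρ : ℝ := (1 + q) / 2 with hρ
  have hρ0 : 0 < ρ := by positivity
  have hρ1 : ρ < 1 := by rw [hρ]; linarith
  have hqρ : q / ρ < 1 := by
    rw [div_lt_one hρ0, hρ]
    linarith
  have hlim := tendsto_self_mul_const_pow_of_lt_one (r := q / ρ) (by positivity) hqρ
  obtain ⟨K, hK⟩ := hlim.bddAbove_range
  refine ⟨M * K, ρ, hρ0, hρ1, fun n hn => (hbound n hn).trans ?_⟩
  have h1 : (n : ℝ) * (q / ρ) ^ n ≤ K := hK ⟨n, rfl⟩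
  have h2 : (n : ℝ) * q ^ n ≤ K * ρ ^ n := by
    rw [div_pow, mul_div_assoc', div_le_iff₀ (by positivity)] at h1
    exact h1
  calc M * ((n : ℝ) * q ^ n) ≤ M * (K * ρ ^ n) := by gcongr
    _ = M * K * ρ ^ n := by ring

/-- **Criterion**, from the coefficients to the singularity. -/
lemma ext_of_coeff (h : Ok c l) {x : ℝ} (hx : 0 < x) (r : ℂ) {C ρ : ℝ} (hρ0 : 0 < ρ) (hρ1 : ρ < 1)
    (hT : ∀ n : ℕ, 1 ≤ n → ‖TT c l x n - r‖ ≤ C * ρ ^ n) :
    ∃ y : ℂ → ℂ, AnalyticAt ℂ y 0 ∧
      ∀ᶠ z : ℂ in 𝓝 0, 0 < z.re → DD c l z = y z - r * Complex.log z := by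
  set a : ℕ → ℂ := fun n => if n = 0 then SS c l x 0 + r * Real.log x else
      (-1) ^ n * (TT c l x n - r) / (n * (x : ℂ) ^ n) with ha
  set R : ℝ := 2 * x / (1 + ρ) with hR
  have hR0 : 0 < R := by positivity
  have hxR : x < R := by
    rw [hR, lt_div_iff₀ (by positivity)]
    nlinarith
  have hq1 : ρ * R / x < 1 := by
    rw [hR]
    have : ρ * (2 * x / (1 + ρ)) / x = 2 * ρ / (1 + ρ) := by
      field_simp
    rw [this, div_lt_one (by positivity)]
    linarith
  have hC : 0 ≤ C * ρ := by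
    have := (norm_nonneg _).trans (hT 1 le_rfl)
    simpa using this
  have hC0 : 0 ≤ C := nonneg_of_mul_nonneg_left hC hρ0
  have hbd : ∀ n, ∀ z ∈ ball (x : ℂ) R, ‖a n * (z - x) ^ n‖ ≤
      (if n = 0 then ‖a 0‖ else 0) + C * (ρ * R / x) ^ n := by
    intro n z hz
    rw [mem_ball, dist_eq_norm] at hz
    by_cases hn : n = 0
    · subst hn
      rw [if_pos rfl, pow_zero, mul_one, pow_zero, mul_one]
      linarith
    · rw [if_neg hn, zero_add, norm_mul, norm_pow]
      have hn1 : 1 ≤ n := Nat.one_le_iff_ne_zero.2 hn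
      have hnr : (1 : ℝ) ≤ n := by exact_mod_cast hn1
      have h3 : ‖a n‖ = ‖TT c l x n - r‖ / (n * x ^ n) := by
        rw [ha]
        simp only
        rw [if_neg hn, norm_div, norm_mul, norm_mul, norm_pow, norm_pow, norm_neg, norm_one,
          one_pow, one_mul, Complex.norm_natCast, Complex.norm_real, Real.norm_of_nonneg hx.le]
      rw [h3]
      have h4 : ‖TT c l x n - r‖ / (n * x ^ n) ≤ C * ρ ^ n / x ^ n := by
        rw [div_le_div_iff₀ (by positivity) (by positivity)]
        have h5 := hT n hn1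
        calc ‖TT c l x n - r‖ * x ^ n ≤ C * ρ ^ n * x ^ n := by gcongr
          _ ≤ C * ρ ^ n * (n * x ^ n) := by
            have : x ^ n ≤ n * x ^ n := by
              have : 0 < x ^ n := by positivity
              nlinarith
            gcongr
      calc ‖TT c l x n - r‖ / (n * x ^ n) * ‖z - x‖ ^ n ≤ C * ρ ^ n / x ^ n * R ^ n := by
            gcongr
        _ = C * (ρ * R / x) ^ n := by
            rw [div_pow, mul_pow]
            ring
  have hsm : Summable fun n : ℕ => (if n = 0 then ‖a 0‖ else 0) + C * (ρ * R / x) ^ n := by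
    refine Summable.add ?_ ?_
    · exact (hasSum_ite_eq (0 : ℕ) ‖a 0‖).summable
    · exact (summable_geometric_of_lt_one (by positivity) hq1).mul_left C
  set G : ℂ → ℂ := fun z => ∑' n, a n * (z - x) ^ n with hG
  have hGd : DifferentiableOn ℂ G (ball (x : ℂ) R) := by
    refine differentiableOn_tsum_of_summable_norm hsm (fun n => ?_) isOpen_ball hbd
    exact (by fun_prop : Differentiable ℂ fun z : ℂ => a n * (z - x) ^ n).differentiableOn
  have h0 : (0 : ℂ) ∈ ball (x : ℂ) R := by
    rw [mem_ball, dist_eq_norm, zero_sub, norm_neg, Complex.norm_real,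
      Real.norm_of_nonneg hx.le]
    exact hxR
  have hGa : AnalyticAt ℂ G 0 := hGd.analyticAt (isOpen_ball.mem_nhds h0)
  refine ⟨G, hGa, ?_⟩
  set E : ℂ → ℂ := fun z => DD c l z + r * Complex.log z with hE
  have hH : IsOpen {z : ℂ | 0 < z.re} := isOpen_lt continuous_const continuous_re
  set U : Set ℂ := ball (x : ℂ) R ∩ {z : ℂ | 0 < z.re} with hU
  have hUo : IsOpen U := isOpen_ball.inter hH
  have hUp : IsPreconnected U := by
    have : Convex ℝ U := (convex_ball _ _).inter (convex_halfSpace_re_gt _)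
    exact this.isPreconnected
  have hxU : (x : ℂ) ∈ U := ⟨mem_ball_self hR0, by show 0 < ((x : ℂ)).re; simpa using hx⟩
  have hEd : DifferentiableOn ℂ E U := by
    intro z hz
    have h2 : DifferentiableAt ℂ (DD c l) z := (diff_DD h).differentiableAt (hH.mem_nhds hz.2)
    exact (h2.add ((Complex.differentiableAt_log (Or.inl hz.2)).const_mul r)).differentiableWithinAt
  have hEA : AnalyticOnNhd ℂ E U := hEd.analyticOnNhd hUo
  have hGA : AnalyticOnNhd ℂ G U := (hGd.mono Set.inter_subset_left).analyticOnNhd hUo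
  have hev : E =ᶠ[𝓝 (x : ℂ)] G := by
    filter_upwards [ball_mem_nhds (x : ℂ) hx] with z hz
    rw [mem_ball, dist_eq_norm] at hz
    exact (series h hx r hz).tsum_eq.symm
  have heq := hEA.eqOn_of_preconnected_of_eventuallyEq hGA hUp hxU hev
  filter_upwards [isOpen_ball.mem_nhds h0] with z hz hre
  have h1 : E z = G z := heq ⟨hz, hre⟩
  rw [← h1, hE]
  ring

/-- **The criterion.** -/
theorem crit (h : Ok c l) {x : ℝ} (hx : 0 < x) (r : ℂ) :
    (∃ y : ℂ → ℂ, AnalyticAt ℂ y 0 ∧
      ∀ᶠ z : ℂ in 𝓝 0, 0 < z.re → DD c l z = y z - r * Complex.log z) ↔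
    ∃ C ρ : ℝ, 0 < ρ ∧ ρ < 1 ∧ ∀ n : ℕ, 1 ≤ n → ‖TT c l x n - r‖ ≤ C * ρ ^ n := by
  constructor
  · rintro ⟨y, hy, he⟩
    exact coeff_of_ext h hx r hy he
  · rintro ⟨C, ρ, h0, h1, h2⟩
    exact ext_of_coeff h hx r h0 h1 h2

end Pool.Agent.R187.GA
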