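import Pool.Agent.R187.GA.Abs
import Pool.Agent.R385.PH.Loc

/-!
# Meromorphic continuation and the logarithm
-/

set_option autoImplicit false

namespace Pool.Agent.R187.GA

open Complex Filter Topology Metric Pool.Agent.R385.MC Pool.Agent.W350.Edge

/-- The right half of a disc. -/
def ri (r : ℝ) : Set ℂ := ball (0 : ℂ) r ∩ {z : ℂ | 0 < z.re}

lemma ri_open (r : ℝ) : IsOpen (ri r) :=
  isOpen_ball.inter (isOpen_lt continuous_const continuous_re)

lemma ri_preconnected (r : ℝ) : IsPreconnected (ri r) := by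
  have : Convex ℝ (ri r) := (convex_ball _ _).inter (convex_halfSpace_re_gt _)
  exact this.isPreconnected

/-- A continuous logarithm of the constant function `1` is constant. -/
lemma log_const {h : ℂ → ℂ} {r : ℝ} (hr : 0 < r) (hd : DifferentiableOn ℂ h (ri r))
    (he : ∀ z ∈ ri r, Complex.exp (h z) = 1) :
    ∃ k : ℤ, ∀ z ∈ ri r, h z = k * (2 * Real.pi * I) := by
  have hmem : ((r / 2 : ℝ) : ℂ) ∈ ri r := by
    refine ⟨?_, ?_⟩
    · rw [mem_ball, dist_zero_right, Complex.norm_real, Real.norm_of_nonneg (by positivity)]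
      linarith
    · show 0 < (((r / 2 : ℝ) : ℂ)).re
      rw [Complex.ofReal_re]
      linarith
  have hderiv : (ri r).EqOn (deriv h) 0 := by
    intro z hz
    have h1 : HasDerivAt h (deriv h z) z :=
      (hd.differentiableAt ((ri_open r).mem_nhds hz)).hasDerivAt
    have h2 := h1.cexp
    have h3 : (fun z => Complex.exp (h z)) =ᶠ[𝓝 z] fun _ => 1 := by
      filter_upwards [(ri_open r).mem_nhds hz] with y hy using he y hy
    have h4 : HasDerivAt (fun z => Complex.exp (h z)) 0 z :=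
      (hasDerivAt_const z (1 : ℂ)).congr_of_eventuallyEq h3
    have h5 := h2.unique h4
    rcases mul_eq_zero.1 h5 with h6 | h6
    · exact absurd h6 (Complex.exp_ne_zero _)
    · exact h6
  have h1 := he _ hmem
  rw [Complex.exp_eq_one_iff] at h1
  obtain ⟨k, hk⟩ := h1
  refine ⟨k, fun z hz => ?_⟩
  rw [← hk]
  exact (ri_open r).is_const_of_deriv_eq_zero (ri_preconnected r) hd hderiv hz hmem

lemma re_pos_ne {z : ℂ} (hz : 0 < z.re) : z ≠ 0 := by
  intro h
  rw [h] at hz
  simp at hz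

/-- **The local criterion.** -/
theorem loc {L g M C : ℂ → ℂ} (hg : DifferentiableOn ℂ g {z : ℂ | 0 < z.re})
    (hM : AnalyticAt ℂ M 0) (hM0 : M 0 ≠ 0) (hC : AnalyticAt ℂ C 0)
    (eqL : ∀ᶠ z : ℂ in 𝓝 0, 0 < z.re → L z = M z * Complex.exp (C z + g z)) (m : ℤ) :
    (∃ F : ℂ → ℂ, MeromorphicAt F 0 ∧ meromorphicOrderAt F 0 = m ∧
      ∀ᶠ z : ℂ in 𝓝 0, 0 < z.re → F z = L z) ↔
    ∃ y : ℂ → ℂ, AnalyticAt ℂ y 0 ∧
      ∀ᶠ z : ℂ in 𝓝 0, 0 < z.re → g z = y z + m * Complex.log z := by
  obtain ⟨μ, hμ, hμe⟩ := exists_log hM hM0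
  constructor
  · rintro ⟨F, hF, hFm, hFL⟩
    obtain ⟨F₀, hF₀, hF₀0, hFe⟩ := (meromorphicOrderAt_eq_int_iff hF).1 hFm
    obtain ⟨f, hf, hfe⟩ := exists_log hF₀ hF₀0
    obtain ⟨r, hr, hall⟩ := Metric.eventually_nhds_iff_ball.1
      (((hμe.and hfe).and (eqL.and hFL)).and ((eventually_nhdsWithin_iff.1 hFe).and
        ((hμ.eventually_analyticAt.and hf.eventually_analyticAt).and hC.eventually_analyticAt)))
    have hopen : IsOpen {z : ℂ | 0 < z.re} := isOpen_lt continuous_const continuous_re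
    have hd : DifferentiableOn ℂ
        (fun z => μ z + C z + g z - m * Complex.log z - f z) (ri r) := by
      intro z hz
      have h1 : DifferentiableAt ℂ g z := hg.differentiableAt (hopen.mem_nhds hz.2)
      obtain ⟨-, -, ⟨h2, h3⟩, h4⟩ := hall z hz.1
      exact ((((h2.differentiableAt.add h4.differentiableAt).add h1).sub
        ((Complex.differentiableAt_log (Or.inl hz.2)).const_mul _)).sub
        h3.differentiableAt).differentiableWithinAt
    obtain ⟨k, hk⟩ := log_const hr hd (fun z hz => by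
      obtain ⟨⟨⟨e1, e2⟩, e3, e4⟩, e5, -⟩ := hall z hz.1
      have hz0 := re_pos_ne hz.2
      have e6 := e3 hz.2
      have e7 := e4 hz.2
      have e8 := e5 hz0
      rw [sub_zero, smul_eq_mul] at e8
      have e9 : Complex.exp (μ z + C z + g z) = z ^ m * Complex.exp (f z) := by
        rw [add_assoc, Complex.exp_add, ← e1, ← e6, ← e7, e8, ← e2]
      rw [Complex.exp_sub, Complex.exp_sub, e9, Complex.exp_int_mul, Complex.exp_log hz0]
      have h10 : z ^ m ≠ 0 := zpow_ne_zero _ hz0
      have h11 := Complex.exp_ne_zero (f z)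
      field_simp)
    refine ⟨fun z => f z - μ z - C z + k * (2 * Real.pi * I),
      ((hf.sub hμ).sub hC).add analyticAt_const, ?_⟩
    filter_upwards [ball_mem_nhds _ hr] with z hz hre
    have := hk z ⟨hz, hre⟩
    linear_combination this
  · rintro ⟨y, hy, hye⟩
    set F₀ : ℂ → ℂ := fun z => M z * Complex.exp (C z + y z) with hF₀
    have hF₀a : AnalyticAt ℂ F₀ 0 := hM.mul (hC.add hy).cexp
    have hF₀0 : F₀ 0 ≠ 0 := mul_ne_zero hM0 (Complex.exp_ne_zero _)
    have hmer : MeromorphicAt (fun z : ℂ => z ^ m * F₀ z) 0 :=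
      ((analyticAt_id.meromorphicAt : MeromorphicAt (fun z : ℂ => z) 0).zpow m).mul
        hF₀a.meromorphicAt
    refine ⟨fun z => z ^ m * F₀ z, hmer, ?_, ?_⟩
    · rw [meromorphicOrderAt_eq_int_iff hmer]
      exact ⟨F₀, hF₀a, hF₀0, Eventually.of_forall fun z => by rw [smul_eq_mul, sub_zero]⟩
    · filter_upwards [eqL, hye] with z h2 h3 hre
      have hz0 := re_pos_ne hre
      rw [h2 hre, h3 hre, hF₀]
      simp only
      rw [show C z + (y z + m * Complex.log z) = (C z + y z) + m * Complex.log z by ring,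
        Complex.exp_add _ (m * Complex.log z), Complex.exp_int_mul, Complex.exp_log hz0]
      ring

end Pool.Agent.R187.GA
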