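import Pool.Agent.R187.GA.Loc
import Pool.Agent.R385.PH.Main

/-!
# The pole of `L₂` at `s = 2` and Gamma averages of the Frobenius traces
-/

set_option autoImplicit false

namespace Pool.Agent.R187.GA

open Complex Filter Topology Metric Finset Polynomial NumberField IsDedekindDomain
  Pool.Agent.W350.Edge Pool.Agent.W350.EdgeV Pool.Agent.W350.EdgeNF Pool.Agent.R385.MC
  Pool.Agent.H921R2.TatePole Pool.Agent.TH958.BV Pool.Agent.R385.PH

variable {k : Type} [Field k] [NumberField k] {N : ℕ} {B : HeightOneSpectrum (𝓞 k) → ℂ[X]}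

/-- The trace of the Frobenius: `det(1 - Frob z) = 1 - (trace) z + ...`. -/
noncomputable def trace (B : HeightOneSpectrum (𝓞 k) → ℂ[X]) (v : HeightOneSpectrum (𝓞 k)) : ℂ :=
  -(B v).coeff 1

/-- `x^n / (n-1)! ∑_v trace_v (log q_v)^n q_v^{-(2+x)}` -/
noncomputable def gammaAverage (B : HeightOneSpectrum (𝓞 k) → ℂ[X]) (x : ℝ) (n : ℕ) : ℂ :=
  (x : ℂ) ^ n / ((n - 1).factorial : ℂ) * ∑' v : HeightOneSpectrum (𝓞 k),
    trace B v * (Real.log (Ideal.absNorm v.asIdeal) : ℂ) ^ n *
      (Ideal.absNorm v.asIdeal : ℂ) ^ (-(2 + x : ℂ))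

/-- the coefficients -/
noncomputable def cc (B : HeightOneSpectrum (𝓞 k) → ℂ[X]) (v : HeightOneSpectrum (𝓞 k)) : ℂ :=
  trace B v * (nm v : ℂ) ^ (-2 : ℂ)

/-- the exponents -/
noncomputable def ll (v : HeightOneSpectrum (𝓞 k)) : ℝ := Real.log (nm v)

lemma nm0 (v : HeightOneSpectrum (𝓞 k)) : (nm v : ℂ) ≠ 0 := by
  have := hN v
  exact_mod_cast (by omega : nm v ≠ 0)

lemma cpow_split (v : HeightOneSpectrum (𝓞 k)) (z : ℂ) :
    (nm v : ℂ) ^ (-(2 + z)) = (nm v : ℂ) ^ (-2 : ℂ) * Complex.exp (-(z * ll v)) := by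
  rw [neg_add, Complex.cpow_add _ _ (nm0 v), Complex.cpow_def_of_ne_zero (nm0 v) (-z)]
  congr 2
  unfold ll
  rw [← Complex.natCast_log]
  ring

lemma TT_eq (x : ℝ) (n : ℕ) : TT (cc B) ll x n = gammaAverage B x n := by
  unfold TT SS gammaAverage
  congr 1
  refine tsum_congr fun v => ?_
  have h := cpow_split v (x : ℂ)
  have h2 : (Ideal.absNorm v.asIdeal : ℂ) ^ (-(2 + x : ℂ)) =
      (nm v : ℂ) ^ (-2 : ℂ) * Complex.exp (-((x : ℂ) * ll v)) := h
  rw [h2]
  unfold cc
  have h3 : (Real.log (Ideal.absNorm v.asIdeal) : ℂ) = ((ll v : ℝ) : ℂ) := rfl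
  rw [h3]
  ring

/-- the coefficients of the polynomial -/
lemma coeff_prod (α : Fin N → ℂ) (s : Finset (Fin N)) :
    (∏ j ∈ s, (1 - Polynomial.C (α j) * Polynomial.X)).coeff 0 = 1 ∧
    (∏ j ∈ s, (1 - Polynomial.C (α j) * Polynomial.X)).coeff 1 = -∑ j ∈ s, α j := by
  classical
  induction s using Finset.induction_on with
  | empty => simp [Polynomial.coeff_one]
  | insert a s ha ih =>
    rw [prod_insert ha, sum_insert ha, Polynomial.mul_coeff_zero, Polynomial.mul_coeff_one, ih.1, ih.2]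
    constructor
    · simp
    · simp [Polynomial.coeff_one]

lemma trace_good {v : HeightOneSpectrum (𝓞 k)} {α : Fin N → ℂ}
    (h : ∀ z : ℂ, (B v).eval z = ∏ j, (1 - α j * z)) : trace B v = ∑ j, α j := by
  have h1 : B v = ∏ j, (1 - Polynomial.C (α j) * Polynomial.X) := by
    refine Polynomial.funext fun z => ?_
    rw [h z, Polynomial.eval_prod]
    refine prod_congr rfl fun j _ => ?_
    simp
  unfold trace
  rw [h1, (coeff_prod α univ).2, neg_neg]

/-- the summability -/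
lemma ok (hB : IsEuler₂ N B) : Ok (cc B) (ll (k := k)) where
  nn v := Real.log_natCast_nonneg _
  sm x hx := by
    obtain ⟨h1, -⟩ := hB
    refine Summable.of_norm_bounded_eventually
      (g := fun v : HeightOneSpectrum (𝓞 k) => (N : ℝ) * (nm v : ℝ) ^ (-(1 + x)))
      ((nm_summable (x := 1 + x) (by linarith)).mul_left _) ?_
    filter_upwards [h1] with v hv
    obtain ⟨α, hα, he⟩ := hv
    have hq0 : (0 : ℝ) < nm v := by exact_mod_cast hN v
    rw [norm_mul, norm_norm, Real.norm_of_nonneg (Real.exp_pos _).le]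
    have h2 : ‖cc B v‖ ≤ N * (nm v : ℝ) ^ (-1 : ℝ) := by
      unfold cc
      rw [norm_mul, trace_good he, Complex.norm_natCast_cpow_of_pos (hN v)]
      have h3 : ‖∑ j, α j‖ ≤ N * (nm v : ℝ) := by
        refine (norm_sum_le _ _).trans ?_
        have h4 : ∀ j ∈ (univ : Finset (Fin N)), ‖α j‖ ≤ (nm v : ℝ) := fun j _ => (hα j).le
        refine (sum_le_card_nsmul _ _ _ h4).trans ?_
        rw [card_univ, Fintype.card_fin, nsmul_eq_mul]
      have h5 : ((-2 : ℂ)).re = -2 := by norm_num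
      rw [h5]
      calc ‖∑ j, α j‖ * (nm v : ℝ) ^ (-2 : ℝ) ≤ N * (nm v : ℝ) * (nm v : ℝ) ^ (-2 : ℝ) := by
            gcongr
        _ = N * (nm v : ℝ) ^ (-1 : ℝ) := by
            rw [mul_assoc]
            congr 1
            have : (nm v : ℝ) ^ (-1 : ℝ) = (nm v : ℝ) ^ (1 : ℝ) * (nm v : ℝ) ^ (-2 : ℝ) := by
              rw [← Real.rpow_add hq0]
              norm_num
            rw [this, Real.rpow_one]
    have h6 : Real.exp (-(x * ll v)) = (nm v : ℝ) ^ (-x) := by
      rw [Real.rpow_def_of_pos hq0]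
      congr 1
      unfold ll
      ring
    rw [h6]
    calc ‖cc B v‖ * (nm v : ℝ) ^ (-x) ≤ N * (nm v : ℝ) ^ (-1 : ℝ) * (nm v : ℝ) ^ (-x) := by
          gcongr
      _ = N * (nm v : ℝ) ^ (-(1 + x)) := by
          rw [mul_assoc, ← Real.rpow_add hq0]
          congr 2
          ring

/-- the first terms -/
lemma fst_eq {P : ℕ} (hG : ∀ v : HeightOneSpectrum (𝓞 k), P ≤ nm v → GoodK 2 N B v)
    (v : HeightOneSpectrum (𝓞 k)) (z : ℂ) :
    fstk 2 N B P v (-(I * z)) = if P ≤ nm v then cc B v * Complex.exp (-(z * ll v)) else 0 := by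
  have hI : I * (-(I * z)) = z := by
    linear_combination (-z) * Complex.I_mul_I
  split_ifs with hv
  · have h : P ≤ nm v ∧ GoodK 2 N B v := ⟨hv, hG v hv⟩
    have h1 := h.2.choose_spec
    unfold fstk avk
    rw [dif_pos h, hI]
    unfold cc
    rw [trace_good h1.2]
    have hq0 : (0 : ℝ) < nm v := by exact_mod_cast hN v
    have h2 : (((nm v : ℝ) ^ (((2 : ℤ) : ℝ) / 2) : ℝ) : ℂ) = (nm v : ℂ) := by
      have : ((2 : ℤ) : ℝ) / 2 = 1 := by norm_num
      rw [this, Real.rpow_one]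
      simp
    have h3 : (nm v : ℂ) ^ (-2 : ℂ) = ((nm v : ℂ) * (nm v : ℂ))⁻¹ := by
      rw [Complex.cpow_neg]
      congr 1
      rw [show (2 : ℂ) = ((2 : ℕ) : ℂ) by norm_num, Complex.cpow_natCast]
      ring
    rw [h2, h3]
    have h4 : Complex.exp (-z * ((Real.log (nm v) : ℝ) : ℂ)) = Complex.exp (-(z * ll v)) := by
      congr 1
      unfold ll
      ring
    rw [h4]
    have := nm0 v
    field_simp
  · unfold fstk avk
    rw [dif_neg fun h1 => hv h1.1]
    simp

/-- the second terms -/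
noncomputable def R2 (N : ℕ) (B : HeightOneSpectrum (𝓞 k) → ℂ[X]) (P : ℕ) (z : ℂ) : ℂ :=
  ∑' v : HeightOneSpectrum (𝓞 k), rvk 2 N B P v (2 + z)

lemma rvk_bd {P : ℕ} (v : HeightOneSpectrum (𝓞 k)) {z : ℂ} (hz : -(1 / 4) < z.re) :
    ‖rvk 2 N B P v (2 + z)‖ ≤ 2 * N * (nm v : ℝ) ^ (-(3 / 2) : ℝ) := by
  refine norm_rvk ?_ v
  rw [Complex.add_re]
  have : ((2 : ℂ)).re = 2 := by norm_num
  rw [this]
  push_cast
  linarith

lemma R2_analytic {P : ℕ} : AnalyticAt ℂ (R2 N B P) 0 := by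
  have hopen : IsOpen {z : ℂ | -(1 / 4) < z.re} := isOpen_lt continuous_const continuous_re
  have h1 : DifferentiableOn ℂ (R2 N B P) {z : ℂ | -(1 / 4) < z.re} := by
    unfold R2
    refine differentiableOn_tsum_of_summable_norm
      ((nm_summable (K := k) (x := 3 / 2) (by norm_num)).mul_left (2 * N : ℝ)) ?_ hopen ?_
    · intro v
      unfold rvk
      by_cases h : P ≤ nm v ∧ GoodK 2 N B v
      · simp only [dif_pos h]
        refine (diff_rem (two_le_nm v) h.2.choose_spec.1).comp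
          (by fun_prop : Differentiable ℂ fun z : ℂ => 2 + z).differentiableOn ?_
        intro z hz
        show (((2 : ℤ) : ℝ)) / 2 + 3 / 4 < (2 + z).re
        have hz' : -(1 / 4) < z.re := hz
        rw [Complex.add_re]
        have : ((2 : ℂ)).re = 2 := by norm_num
        rw [this]
        push_cast
        linarith
      · simp only [dif_neg h]
        exact differentiableOn_const _
    · intro v z hz
      exact rvk_bd v hz
  exact h1.analyticAt (hopen.mem_nhds (by show -(1 / 4) < ((0 : ℂ)).re; norm_num))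

/-- the decomposition of the Euler product -/
lemma decomp (hB : IsEuler₂ N B) {P : ℕ}
    (hG : ∀ v : HeightOneSpectrum (𝓞 k), P ≤ nm v → GoodK 2 N B v) {z : ℂ} (hz : 0 < z.re) :
    LFun₂ B (2 + z) = (∏ v ∈ SP k P, factor B v (2 + z)) *
      Complex.exp ((R2 N B P z - ∑ v ∈ SP k P, cc B v * Complex.exp (-(z * ll v))) +
        DD (cc B) ll z) := by
  classical
  have hζ : (-(I * z)).im < 0 := by
    simp
    exact hz
  have heg : eg 2 (-(I * z)) = 2 + z := by
    rw [eg_two]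
    linear_combination (-z) * Complex.I_mul_I
  have h1 := (euler_k hG hζ).tprod_eq
  have h2 := hasSum_ellk (w := 2) (N := N) (B := B) (P := P) hζ
  -- the first terms
  have h3 : HasSum (fun v => cc B v * Complex.exp (-(z * ll v))) (DD (cc B) ll z) := by
    refine (Summable.of_norm ?_).hasSum
    refine ((ok hB).sm z.re hz).congr fun v => ?_
    rw [norm_term]
  have h4 : HasSum (fun v => if v ∈ SP k P then cc B v * Complex.exp (-(z * ll v)) else 0)
      (∑ v ∈ SP k P, (if v ∈ SP k P then cc B v * Complex.exp (-(z * ll v)) else 0)) :=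
    hasSum_sum_of_ne_finset_zero fun v hv => if_neg hv
  have h5 : ∑ v ∈ SP k P, (if v ∈ SP k P then cc B v * Complex.exp (-(z * ll v)) else 0) =
      ∑ v ∈ SP k P, cc B v * Complex.exp (-(z * ll v)) := sum_congr rfl fun v hv => if_pos hv
  rw [h5] at h4
  have h6 : HasSum (fun v => fstk 2 N B P v (-(I * z)))
      (DD (cc B) ll z - ∑ v ∈ SP k P, cc B v * Complex.exp (-(z * ll v))) := by
    refine (h3.sub h4).congr_fun fun v => ?_
    rw [fst_eq hG]
    by_cases hv : v ∈ SP k P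
    · have h7 : ¬ P ≤ nm v := by
        unfold SP at hv
        rw [mem_FV] at hv
        omega
      rw [if_neg h7, if_pos hv]
      ring
    · have h7 : P ≤ nm v := by
        unfold SP at hv
        rw [mem_FV] at hv
        omega
      rw [if_pos h7, if_neg hv]
      ring
  have h8 : HasSum (fun v => rvk 2 N B P v (2 + z)) (R2 N B P z) :=
    (Summable.of_norm_bounded
      ((nm_summable (K := k) (x := 3 / 2) (by norm_num)).mul_left (2 * N : ℝ))
      fun v => rvk_bd v (by linarith)).hasSum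
  have h9 : HasSum (fun v => ellk 2 N B P v (-(I * z)))
      ((DD (cc B) ll z - ∑ v ∈ SP k P, cc B v * Complex.exp (-(z * ll v))) + R2 N B P z) := by
    refine (h6.add h8).congr_fun fun v => ?_
    unfold ellk
    rw [heg]
  have h10 := h2.unique h9
  rw [heg] at h1
  show ∏' v : HeightOneSpectrum (𝓞 k), factor B v (2 + z) = _
  rw [h1, h10]
  congr 2
  ring

lemma hasPole_shift (r : ℤ) : HasPole B r ↔
    ∃ F : ℂ → ℂ, MeromorphicAt F 0 ∧ meromorphicOrderAt F 0 = (-r : ℤ) ∧
      ∀ᶠ z : ℂ in 𝓝 0, 0 < z.re → F z = LFun₂ B (2 + z) := by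
  have hd1 : ∀ z : ℂ, deriv (fun z : ℂ => 2 + z) z ≠ 0 := by
    intro z
    simp
  have hd2 : ∀ z : ℂ, deriv (fun z : ℂ => z - 2) z ≠ 0 := by
    intro z
    simp
  have ha1 : AnalyticAt ℂ (fun z : ℂ => 2 + z) 0 := analyticAt_const.add analyticAt_id
  have ha2 : AnalyticAt ℂ (fun z : ℂ => z - 2) 2 := analyticAt_id.sub analyticAt_const
  unfold HasPole
  constructor
  · rintro ⟨F, hF, hFm, hFL⟩
    have hF' : MeromorphicAt F ((fun z : ℂ => 2 + z) 0) := by simpa using hF
    refine ⟨F ∘ (fun z : ℂ => 2 + z), hF'.comp_analyticAt ha1, ?_, ?_⟩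
    · rw [meromorphicOrderAt_comp_of_deriv_ne_zero ha1 (hd1 0)]
      simpa using hFm
    · have h1 : Tendsto (fun z : ℂ => 2 + z) (𝓝 0) (𝓝 2) := by
        have := ha1.continuousAt.tendsto
        simpa using this
      filter_upwards [h1.eventually hFL] with z h2 hre
      refine h2 ?_
      rw [Complex.add_re]
      have : ((2 : ℂ)).re = 2 := by norm_num
      rw [this]
      linarith
  · rintro ⟨F, hF, hFm, hFL⟩
    have hF' : MeromorphicAt F ((fun z : ℂ => z - 2) 2) := by simpa using hF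
    refine ⟨F ∘ (fun z : ℂ => z - 2),
      MeromorphicAt.comp_analyticAt (g := fun z : ℂ => z - 2) (x := 2) hF' ha2, ?_, ?_⟩
    · rw [meromorphicOrderAt_comp_of_deriv_ne_zero ha2 (hd2 2)]
      simpa using hFm
    · have h1 : Tendsto (fun z : ℂ => z - 2) (𝓝 2) (𝓝 0) := by
        have := ha2.continuousAt.tendsto
        simpa using this
      filter_upwards [h1.eventually hFL] with s h2 hre
      have h3 : 0 < (s - 2).re := by
        rw [Complex.sub_re]
        have : ((2 : ℂ)).re = 2 := by norm_num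
        rw [this]
        linarith
      rw [Function.comp_apply, h2 h3]
      congr 1
      ring

/-- **The criterion for the pole.** -/
theorem main (hB : IsEuler₂ N B) {x : ℝ} (hx : 0 < x) (r : ℤ) :
    HasPole B r ↔ ∃ C ρ : ℝ, 0 < ρ ∧ ρ < 1 ∧
      ∀ n : ℕ, 1 ≤ n → ‖gammaAverage B x n - r‖ ≤ C * ρ ^ n := by
  classical
  obtain ⟨P₀, hP₀⟩ := exists_P hB
  have hG := (hP₀ P₀ le_rfl).2
  rw [hasPole_shift]
  have hM : AnalyticAt ℂ (fun z : ℂ => ∏ v ∈ SP k P₀, factor B v (2 + z)) 0 := by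
    refine Finset.analyticAt_fun_prod _ fun v _ => ?_
    have h1 : Differentiable ℂ fun z : ℂ => (B v).eval ((nm v : ℂ) ^ (-(2 + z))) := by
      have h2 : Differentiable ℂ fun z : ℂ => (nm v : ℂ) ^ (-(2 + z)) :=
        Differentiable.const_cpow (by fun_prop) (Or.inl (nm0 v))
      exact (B v).differentiable.comp h2
    refine (h1.analyticAt 0).inv ?_
    have h3 := hB.2 v
    have h4 : (-(2 + (0 : ℂ))) = -2 := by ring
    show (B v).eval ((nm v : ℂ) ^ (-(2 + (0 : ℂ)))) ≠ 0
    rw [h4]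
    exact h3
  have hM0 : (fun z : ℂ => ∏ v ∈ SP k P₀, factor B v (2 + z)) 0 ≠ 0 := by
    refine prod_ne_zero_iff.2 fun v _ => ?_
    unfold Pool.Agent.R385.PH.factor
    have h4 : (-(2 + (0 : ℂ))) = -2 := by ring
    rw [h4]
    exact inv_ne_zero (hB.2 v)
  have hC : AnalyticAt ℂ (fun z : ℂ => R2 N B P₀ z -
      ∑ v ∈ SP k P₀, cc B v * Complex.exp (-(z * ll v))) 0 := by
    refine R2_analytic.sub ?_
    exact (by fun_prop : Differentiable ℂ fun z : ℂ =>
      ∑ v ∈ SP k P₀, cc B v * Complex.exp (-(z * ll v))).analyticAt 0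
  rw [loc (L := fun z => LFun₂ B (2 + z)) (diff_DD (ok hB)) hM hM0 hC
    (Eventually.of_forall fun z hz => decomp hB hG hz) (-r)]
  have h1 := crit (ok hB) hx (r : ℂ)
  simp only [TT_eq] at h1
  rw [← h1]
  constructor
  · rintro ⟨y, hy, he⟩
    refine ⟨y, hy, ?_⟩
    filter_upwards [he] with z h2 h3
    rw [h2 h3]
    push_cast
    ring
  · rintro ⟨y, hy, he⟩
    refine ⟨y, hy, ?_⟩
    filter_upwards [he] with z h2 h3
    rw [h2 h3]
    push_cast
    ring

end Pool.Agent.R187.GA
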